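import Pool.Agent.Helper18_X2.Stmts

/-!
# AWC, part X2, module LYM: `Lay` under homomorphisms, subgroups and central extensions
-/

set_option autoImplicit false

noncomputable section

namespace Pool.Agent.PP.X2.H27

open Pool.Agent.Helper51_AWC Pool.Agent.Helper79_WRA Pool.Agent.PP
open scoped commutatorElement

/-- `CovS` and isomorphisms -/
theorem covS_equiv {K L S : Type} [Group K] [Group L] [Group S] (e : K ≃* L) (h : CovS K S) :
    CovS L S := by
  obtain ⟨h1, f, hf, hk⟩ := h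
  refine ⟨?_, f.comp e.symm.toMonoidHom, hf.comp e.symm.surjective, ?_⟩
  · have h2 := congrArg (Subgroup.map e.toMonoidHom) h1
    have h3 : Subgroup.map e.toMonoidHom ⊤ = ⊤ := by
      rw [← MonoidHom.range_eq_map]
      exact MonoidHom.range_eq_top.mpr e.surjective
    rw [h3, commutator_def, Subgroup.map_commutator, h3] at h2
    exact h2
  · intro x hx
    rw [MonoidHom.mem_ker] at hx
    have h2 : e.symm x ∈ f.ker := hx
    have h3 := hk h2
    rw [Subgroup.mem_center_iff] at h3 ⊢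
    intro y
    have h4 := congrArg e (h3 (e.symm y))
    rw [map_mul, map_mul, e.apply_symm_apply, e.apply_symm_apply] at h4
    exact h4

theorem lay_map (qua : QuaStmt) (ℓ : ℕ) (𝒜 : Fam) (H : Type) [Group H] (E : Subgroup H)
    (hE : Lay ℓ 𝒜 E) (H' : Type) [Group H'] (φ : H →* H') : Lay ℓ 𝒜 (E.map φ) := by
  obtain ⟨I, hI, K, hK⟩ := hE
  refine ⟨{i // (K i).map φ ≠ ⊥}, inferInstance, fun i => (K i.1).map φ, ?_, ?_, ?_⟩
  · rintro ⟨i, hi⟩ ⟨j, hj⟩ hij x ⟨x', hx', rfl⟩ y ⟨y', hy', rfl⟩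
    have h : i ≠ j := fun h => hij (Subtype.ext h)
    rw [← map_mul, ← map_mul, hK.comm i j h x' hx' y' hy']
  · rw [← hK.sup, Subgroup.map_iSup]
    refine le_antisymm (iSup_le fun i => le_iSup (fun i => (K i).map φ) i.1) (iSup_le fun i => ?_)
    by_cases h : (K i).map φ = ⊥
    · rw [h]
      exact bot_le
    · exact le_iSup (fun i : {i // (K i).map φ ≠ ⊥} => (K i.1).map φ) ⟨i, h⟩
  · rintro ⟨i, hi⟩
    obtain ⟨S, gS, fS, hS, hl, hA, hc⟩ := hK.cov i
    refine ⟨S, gS, fS, hS, hl, hA, ?_⟩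
    obtain ⟨-, -, -, -, h5, -⟩ := qua (K i) S hS hc
    rcases h5 ((K i).map φ) (φ.subgroupMap (K i)) (φ.subgroupMap_surjective (K i)) with h | h
    · exfalso
      apply hi
      rw [eq_bot_iff]
      rintro _ ⟨x, hx, rfl⟩
      have h1 := congrArg Subtype.val (h ⟨x, hx⟩)
      exact h1
    · exact h

theorem lay_sub (ℓ : ℕ) (𝒜 : Fam) (H : Type) [Group H] (E : Subgroup H)
    (hE : Lay ℓ 𝒜 E) (T : Subgroup H) (hT : E ≤ T) : Lay ℓ 𝒜 (E.subgroupOf T) := by
  obtain ⟨I, hI, K, hK⟩ := hE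
  have hle : ∀ i, K i ≤ E := fun i => by
    rw [← hK.sup]
    exact le_iSup K i
  refine ⟨I, hI, fun i => (K i).subgroupOf T, ?_, ?_, ?_⟩
  · intro i j hij x hx y hy
    exact Subtype.ext (hK.comm i j hij x hx y hy)
  · apply Subgroup.map_injective T.subtype_injective
    rw [Subgroup.map_iSup, Subgroup.subgroupOf_map_subtype, inf_of_le_left hT, ← hK.sup]
    refine iSup_congr fun i => ?_
    rw [Subgroup.subgroupOf_map_subtype, inf_of_le_left ((hle i).trans hT)]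
  · intro i
    obtain ⟨S, gS, fS, hS, hl, hA, hc⟩ := hK.cov i
    refine ⟨S, gS, fS, hS, hl, hA, ?_⟩
    exact covS_equiv (Subgroup.subgroupOfEquivOfLe ((hle i).trans hT)).symm hc

/-- the commutator subgroup of the preimage -/
theorem comap_facts (qua : QuaStmt) {H S D : Type} [Group H] [Group S] [Group D] (ψ : D →* H)
    (K : Subgroup H) (hK : K ≤ ψ.range) (hz : ψ.ker ≤ Subgroup.center D) (hS : NonabSimple S)
    (hc : CovS K S) : CovS (⁅K.comap ψ, K.comap ψ⁆ : Subgroup D) S ∧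
      (⁅K.comap ψ, K.comap ψ⁆ : Subgroup D).map ψ = K := by
  obtain ⟨-, -, -, -, -, h6, -⟩ := qua K S hS hc
  obtain ⟨g, hg⟩ : ∃ g : (K.comap ψ) →* K, ∀ x, (g x : H) = ψ x :=
    ⟨(ψ.comp (K.comap ψ).subtype).codRestrict K (fun x => x.2), fun x => rfl⟩
  have hgs : Function.Surjective g := by
    rintro ⟨y, hy⟩
    obtain ⟨x, rfl⟩ := hK hy
    exact ⟨⟨x, hy⟩, Subtype.ext (hg _)⟩
  have hgk : g.ker ≤ Subgroup.center (K.comap ψ) := by
    intro x hx
    rw [MonoidHom.mem_ker] at hx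
    have h1 : ψ (x : D) = 1 := by
      rw [← hg, hx]
      rfl
    have h2 := hz (show (x : D) ∈ ψ.ker from h1)
    rw [Subgroup.mem_center_iff] at h2 ⊢
    exact fun y => Subtype.ext (h2 y)
  obtain ⟨a, b⟩ := h6 (K.comap ψ) g hgs hgk
  have h3 : (commutator (K.comap ψ)).map (K.comap ψ).subtype = ⁅K.comap ψ, K.comap ψ⁆ :=
    Subgroup.map_subtype_commutator _
  constructor
  · have e := (commutator (K.comap ψ)).equivMapOfInjective (K.comap ψ).subtype
      (K.comap ψ).subtype_injective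
    rw [h3] at e
    exact covS_equiv e a
  · rw [← h3, Subgroup.map_map]
    have h4 : ψ.comp (K.comap ψ).subtype = K.subtype.comp g := by
      ext x
      exact (hg x).symm
    rw [h4, ← Subgroup.map_map, b, ← MonoidHom.range_eq_map, Subgroup.range_subtype]

theorem comm_of {D : Type} [Group D] (A B : Subgroup D) (h : ⁅A, B⁆ ≤ Subgroup.center D) :
    ⁅⁅A, A⁆, ⁅B, B⁆⁆ = (⊥ : Subgroup D) := by
  have hc : ∀ C : Subgroup D, ⁅⁅A, B⁆, C⁆ = ⊥ := by
    intro C
    rw [Subgroup.commutator_eq_bot_iff_le_centralizer]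
    refine h.trans ?_
    exact Subgroup.center_le_centralizer _
  have h1 : ⁅⁅A, A⁆, B⁆ = ⊥ := by
    refine Subgroup.commutator_commutator_eq_bot_of_rotate ?_ ?_
    · exact hc A
    · rw [Subgroup.commutator_comm B A]
      exact hc A
  rw [eq_bot_iff, ← h1]
  exact Subgroup.commutator_mono le_rfl (Subgroup.commutator_le_self B)

/-- LYM -/
theorem lym (qua : QuaStmt) : LymStmt := by
  intro ℓ 𝒜 H _ E hE
  refine ⟨fun H' _ φ => lay_map qua ℓ 𝒜 H E hE H' φ, fun T hT => lay_sub ℓ 𝒜 H E hE T hT, ?_⟩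
  intro D _ ψ hr hz
  obtain ⟨I, hI, K, hK⟩ := hE
  have hle : ∀ i, K i ≤ E := fun i => by
    rw [← hK.sup]
    exact le_iSup K i
  obtain ⟨A, hA⟩ : ∃ A : I → Subgroup D, A = fun i => (K i).comap ψ := ⟨_, rfl⟩
  have hfact : ∀ i, ∃ (S : Type) (_ : Group S) (_ : Finite S), NonabSimple S ∧ ℓ ∣ Nat.card S ∧
      𝒜 S ∧ CovS (⁅A i, A i⁆ : Subgroup D) S ∧ (⁅A i, A i⁆ : Subgroup D).map ψ = K i := by
    intro i
    obtain ⟨S, gS, fS, hS, hl, hAS, hc⟩ := hK.cov i
    obtain ⟨h1, h2⟩ := comap_facts qua ψ (K i) ((hle i).trans hr) hz hS hc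
    rw [hA]
    exact ⟨S, gS, fS, hS, hl, hAS, h1, h2⟩
  obtain ⟨B, hB⟩ : ∃ B : Subgroup D, B = ⨆ i, ⁅A i, A i⁆ := ⟨_, rfl⟩
  have hBmap : B.map ψ = E := by
    rw [hB, Subgroup.map_iSup, ← hK.sup]
    refine iSup_congr fun i => ?_
    obtain ⟨_, _, _, _, _, _, _, h⟩ := hfact i
    exact h
  have hdec : ∀ x, ψ x ∈ E → ∃ y ∈ B, ∃ z ∈ ψ.ker, x = y * z := by
    intro x hx
    rw [← hBmap] at hx
    obtain ⟨y, hy, hyx⟩ := hx
    refine ⟨y, hy, y⁻¹ * x, ?_, by group⟩
    rw [MonoidHom.mem_ker, map_mul, map_inv, hyx, inv_mul_cancel]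
  have hcomm : ⁅E.comap ψ, E.comap ψ⁆ = B := by
    apply le_antisymm
    · rw [Subgroup.commutator_le]
      intro x hx y hy
      obtain ⟨x', hx', z, hz', rfl⟩ := hdec x hx
      obtain ⟨y', hy', w, hw', rfl⟩ := hdec y hy
      have c1 := Subgroup.mem_center_iff.mp (hz hz')
      have c2 := Subgroup.mem_center_iff.mp (hz hw')
      have h1 : ⁅x' * z, y' * w⁆ = ⁅x', y'⁆ := by
        rw [commutatorElement_def, commutatorElement_def]
        have e1 : (y' * w) * z = z * (y' * w) := c1 _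
        have e2 : x'⁻¹ * w = w * x'⁻¹ := c2 _
        calc x' * z * (y' * w) * (x' * z)⁻¹ * (y' * w)⁻¹ =
            x' * (z * (y' * w)) * (x' * z)⁻¹ * (y' * w)⁻¹ := by group
          _ = x' * ((y' * w) * z) * (x' * z)⁻¹ * (y' * w)⁻¹ := by rw [e1]
          _ = x' * y' * (w * x'⁻¹) * (y' * w)⁻¹ := by group
          _ = x' * y' * (x'⁻¹ * w) * (y' * w)⁻¹ := by rw [e2]
          _ = x' * y' * x'⁻¹ * y'⁻¹ := by group
      rw [h1, commutatorElement_def]
      exact B.mul_mem (B.mul_mem (B.mul_mem hx' hy') (B.inv_mem hx')) (B.inv_mem hy')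
    · rw [hB]
      refine iSup_le fun i => ?_
      rw [hA]
      exact Subgroup.commutator_mono (Subgroup.comap_mono (hle i)) (Subgroup.comap_mono (hle i))
  rw [hcomm]
  refine ⟨⟨I, hI, fun i => ⁅A i, A i⁆, ?_, hB.symm, ?_⟩, hBmap, hdec⟩
  · intro i j hij x hx y hy
    have h1 : ⁅A i, A j⁆ ≤ Subgroup.center D := by
      refine le_trans ?_ hz
      rw [Subgroup.commutator_le]
      intro a ha b hb
      rw [hA] at ha hb
      rw [MonoidHom.mem_ker, map_commutatorElement, commutatorElement_eq_one_iff_mul_comm]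
      exact hK.comm i j hij _ ha _ hb
    have h2 := comm_of (A i) (A j) h1
    have h3 : ⁅x, y⁆ ∈ ⁅⁅A i, A i⁆, ⁅A j, A j⁆⁆ := Subgroup.commutator_mem_commutator hx hy
    rw [h2, Subgroup.mem_bot, commutatorElement_eq_one_iff_mul_comm] at h3
    exact h3
  · intro i
    obtain ⟨S, gS, fS, hS, hl, hAS, h1, -⟩ := hfact i
    exact ⟨S, gS, fS, hS, hl, hAS, h1⟩

end Pool.Agent.PP.X2.H27
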